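import Pool.Agent.H57.NL.Graph
import Pool.Agent.H57.NL.Osc

/-!
MP_3dbb84_gt (Arnold's conjecture on exact Lagrangians in cotangent bundles), partial result.

`M = N / Γ` is a closed connected manifold: `N` is a closed connected embedded submanifold of
`ℝ^m`, `Γ` a group of translations (for instance `Γ = 0` and any closed `N`, or `N = ℝ^n`, `Γ` a
lattice and `M` a flat torus). A closed exact Lagrangian submanifold of `T*M` is presented by its
preimage `S` in `T*N`, with a primitive `f` of the Liouville form.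

(1) If `S` is not the graph of a differential, then it has a caustic point `z` at which `f` is
maximal or minimal on the fibre of `z`, and for every unit vertical tangent vector `b` at `z` and every
bound `κ` of the curvature, `⟨b, p⟩` takes a value at least `⟨b, p(z)⟩ + 1/κ` and a value at most
`⟨b, p(z)⟩ - 1/κ` on `S`.

(2) If the curvature of `S` is at most `κ` and the oscillation of the momentum on `S` is less than
`2/κ`, then `S` is the graph of a differential `du` and the symplectic diffeomorphism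
`(q, p) ↦ (q, p + du(q))` of `T*M` maps the zero section to it.
-/

set_option autoImplicit false

open scoped ContDiff Topology RealInnerProductSpace

namespace Pool.Agent.H57.Old.PinchedLagrangians

open Pool.Agent.H57.NL

theorem result {m n : ℕ} {N : Set (E m)} {Γ : AddSubgroup (E m)} {S : Set (E m × E m)}
    {f : E m × E m → ℝ} (hM : ClosedMfd n N Γ) (hL : ExactLag n N Γ S f) :
    ((∃ u s ψ ψ', IsGraph N Γ S u s ψ ψ') ∨
      ∃ z ∈ S, Caustic S z ∧ FibreExtremal S f z ∧ ∀ κ : ℝ, 0 < κ → CurvLE κ S →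
        ∀ b : E m, ‖b‖ = 1 → (0, b) ∈ Tan S z →
          (∃ y ∈ S, ⟪b, z.2⟫ + 1 / κ ≤ ⟪b, y.2⟫) ∧ (∃ y ∈ S, ⟪b, y.2⟫ ≤ ⟪b, z.2⟫ - 1 / κ)) ∧
    (∀ κ : ℝ, 0 < κ → CurvLE κ S → (∀ z ∈ S, ∀ y ∈ S, ‖z.2 - y.2‖ < 2 / κ) →
      ∃ u s ψ ψ', IsGraph N Γ S u s ψ ψ') := by
  constructor
  · by_cases hno : ∀ z ∈ S, Caustic S z → ¬ FibreExtremal S f z
    · left
      obtain ⟨h1, h2⟩ := injective_of_no_extremal hM hL hno
      exact graph_of_injective hM hL h1 h2
    · right
      push Not at hno
      obtain ⟨z, hz, hzc, hze⟩ := hno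
      refine ⟨z, hz, hzc, hze, ?_⟩
      intro κ hκ hcurv b hb hT
      obtain ⟨R, hR⟩ := hM.cocpt
      have hRc := hL.compact_part R
      have hco : ∀ z ∈ S, ∃ g ∈ Γ, ‖z.1 + g‖ ≤ R := fun z hz => hR z.1 (hL.subTN hz).1
      have hT2 : (0, -b) ∈ Tan S z := by
        have := Tan.smul hT (-1)
        rwa [Prod.smul_mk, smul_zero, neg_one_smul] at this
      refine ⟨osc_up hL.sub hL.closed hL.inv hRc hco hκ hcurv hz hb hT, ?_⟩
      obtain ⟨y, hy, h⟩ := osc_up hL.sub hL.closed hL.inv hRc hco hκ hcurv hz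
        (by rw [norm_neg]; exact hb) hT2
      refine ⟨y, hy, ?_⟩
      rw [inner_neg_left, inner_neg_left] at h
      linarith
  · intro κ hκ hcurv hosc
    have h2 := no_caustic_of_pinched hM hL hκ hcurv hosc
    obtain ⟨h1, -⟩ := injective_of_no_extremal hM hL (fun z hz hc => absurd hc (h2 z hz))
    exact graph_of_injective hM hL h1 h2

end Pool.Agent.H57.Old.PinchedLagrangians
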